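import Pool.Agent.Q284.GE.Stm
import Pool.Agent.Q53.PS.Gen

/-!
# Project GE (helper284): job PLB, the number of primes
-/

set_option autoImplicit false

open Finset Polynomial ComplexConjugate
open Pool.Agent.H341R2.Sharp (Mon mem_Mon)

namespace Pool.Agent.Q53.GE

open Pool.Agent.Q284.PS (Prim Hay CM PD PI qq)
open Pool.Agent.Q284.GE

variable {F : Type} [Field F] [Fintype F]

theorem mem_PD {j : ℕ} {P : F[X]} :
    P ∈ PD F j ↔ P.Monic ∧ P.natDegree ≤ j ∧ Irreducible P ∧ P.natDegree ∣ j := by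
  classical
  unfold PD
  rw [mem_filter, mem_biUnion]
  constructor
  · rintro ⟨⟨d, hd, hP⟩, h1, h2⟩
    rw [mem_Mon] at hP
    rw [mem_range] at hd
    exact ⟨hP.1, by omega, h1, h2⟩
  · rintro ⟨h0, h1, h2, h3⟩
    exact ⟨⟨P.natDegree, by rw [mem_range]; omega, mem_Mon.2 ⟨h0, rfl⟩⟩, h2, h3⟩

theorem mem_PI {j : ℕ} {P : F[X]} : P ∈ PI F j ↔ P.Monic ∧ P.natDegree = j ∧ Irreducible P := by
  classical
  unfold PI
  rw [mem_filter, mem_Mon, and_assoc]

omit [Fintype F] in
theorem deg_pos {P : F[X]} (hP : Irreducible P) : 1 ≤ P.natDegree := hP.natDegree_pos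

theorem filter_eq (j : ℕ) :
    (open Classical in (PD F j).filter (fun P => ¬ P.natDegree < j)) = PI F j := by
  classical
  ext P
  rw [mem_filter, mem_PD, mem_PI]
  constructor
  · rintro ⟨⟨h0, h1, h2, h3⟩, h4⟩
    exact ⟨h0, by omega, h2⟩
  · rintro ⟨h0, h1, h2⟩
    exact ⟨⟨h0, by omega, h2, by rw [h1]⟩, by omega⟩

/-- the sum over the primes of degree `< j` -/
noncomputable def S0 (F : Type) [Field F] [Fintype F] (j : ℕ) : ℕ :=
  ∑ P ∈ (open Classical in (PD F j).filter (fun P => P.natDegree < j)), P.natDegree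

theorem split_sum {j : ℕ} (hj : 1 ≤ j) : Fintype.card F ^ j = S0 F j + j * (PI F j).card := by
  classical
  have h1 := Pool.Agent.Q53.PS.t_CPR F j hj
  rw [← h1, ← sum_filter_add_sum_filter_not (PD F j) (fun P => P.natDegree < j)]
  congr 1
  rw [filter_eq]
  rw [sum_congr rfl fun P hP => (mem_PI.1 hP).2.1, sum_const, smul_eq_mul, mul_comm]

theorem first {j : ℕ} (hj : 1 ≤ j) : j * (PI F j).card ≤ Fintype.card F ^ j := by
  have := split_sum (F := F) hj
  omega

theorem two_le : 2 ≤ Fintype.card F := Fintype.one_lt_card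

theorem geo (m : ℕ) : ∑ d ∈ Icc 1 m, Fintype.card F ^ d ≤ 2 * Fintype.card F ^ m := by
  induction m with
  | zero => simp
  | succ m ih =>
    rw [sum_Icc_succ_top (by omega)]
    have h1 := two_le (F := F)
    have h2 : 2 * Fintype.card F ^ m ≤ Fintype.card F ^ (m + 1) := by
      rw [pow_succ, mul_comm]
      exact Nat.mul_le_mul_left _ h1
    omega

theorem S0_le_sum (j : ℕ) (hj : 1 ≤ j) : S0 F j ≤ ∑ d ∈ Icc 1 (j / 2), Fintype.card F ^ d := by
  classical
  have h1 : (open Classical in (PD F j).filter (fun P => P.natDegree < j)) ⊆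
      (Icc 1 (j / 2)).biUnion (PI F) := by
    intro P hP
    rw [mem_filter, mem_PD] at hP
    obtain ⟨⟨h0, h1, h2, h3⟩, h4⟩ := hP
    rw [mem_biUnion]
    refine ⟨P.natDegree, ?_, mem_PI.2 ⟨h0, rfl, h2⟩⟩
    rw [mem_Icc]
    refine ⟨deg_pos h2, ?_⟩
    obtain ⟨c, hc⟩ := h3
    have hc2 : 2 ≤ c := by
      by_contra hcon
      have : c = 0 ∨ c = 1 := by omega
      rcases this with h | h
      · rw [h] at hc; omega
      · rw [h] at hc; omega
    rw [Nat.le_div_iff_mul_le (by norm_num), hc]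
    exact Nat.mul_le_mul_left _ hc2
  unfold S0
  calc _ ≤ ∑ P ∈ (Icc 1 (j / 2)).biUnion (PI F), P.natDegree :=
        sum_le_sum_of_subset h1
    _ = ∑ d ∈ Icc 1 (j / 2), ∑ P ∈ PI F d, P.natDegree := by
        rw [sum_biUnion]
        intro a _ b _ hab
        rw [Function.onFun, Finset.disjoint_left]
        intro P hP hP'
        exact hab ((mem_PI.1 hP).2.1.symm.trans (mem_PI.1 hP').2.1)
    _ ≤ ∑ d ∈ Icc 1 (j / 2), Fintype.card F ^ d := by
        refine sum_le_sum fun d hd => ?_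
        rw [sum_congr rfl fun P hP => (mem_PI.1 hP).2.1, sum_const, smul_eq_mul, mul_comm]
        exact first (mem_Icc.1 hd).1

theorem S0_le (j : ℕ) (hj : 1 ≤ j) : S0 F j ≤ 2 * Fintype.card F ^ (j / 2) :=
  (S0_le_sum j hj).trans (geo _)

theorem two_S0_le (j : ℕ) (hj : 1 ≤ j) : 2 * S0 F j ≤ Fintype.card F ^ j := by
  have h2 := two_le (F := F)
  rcases Nat.lt_or_ge j 4 with h | h
  · have h3 := S0_le_sum (F := F) j hj
    have h4 : j = 1 ∨ (j / 2 = 1 ∧ 2 ≤ j) := by omega
    rcases h4 with h4 | ⟨h4, h5⟩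
    · subst h4
      simp at h3
      rw [h3]
      exact Nat.zero_le _
    · rw [h4] at h3
      simp at h3
      have h6 : Fintype.card F ^ 2 ≤ Fintype.card F ^ j := Nat.pow_le_pow_right (by omega) h5
      nlinarith
  · have h3 := S0_le (F := F) j hj
    have h4 : Fintype.card F ^ j = Fintype.card F ^ (j - j / 2) * Fintype.card F ^ (j / 2) := by
      rw [← pow_add]
      congr 1
      omega
    have h5 : 4 ≤ Fintype.card F ^ (j - j / 2) := by
      calc 4 = 2 ^ 2 := by norm_num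
        _ ≤ Fintype.card F ^ 2 := Nat.pow_le_pow_left h2 2
        _ ≤ _ := Nat.pow_le_pow_right (by omega) (by omega)
    rw [h4]
    nlinarith [Nat.mul_le_mul_right (Fintype.card F ^ (j / 2)) h5]

theorem t_PLB : S_PLB := by
  intro F _ _ j hj
  classical
  refine ⟨first hj, ?_, ?_⟩
  · have h1 := split_sum (F := F) hj
    have h2 := two_S0_le (F := F) j hj
    have h3 : 2 * j * (PI F j).card = 2 * (j * (PI F j).card) := by ring
    rw [h3]
    omega
  · have h1 : ∑ P ∈ (open Classical in (PD F j).filter (fun P => P.natDegree < j)),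
        (P.natDegree : ℝ) = (S0 F j : ℝ) := by
      unfold S0
      rw [Nat.cast_sum]
    rw [h1]
    have h2 : (S0 F j : ℝ) ≤ 2 * (Fintype.card F : ℝ) ^ (j / 2) := by
      exact_mod_cast S0_le (F := F) j hj
    refine h2.trans ?_
    have h3 : (1 : ℝ) ≤ (Fintype.card F : ℝ) := by
      have := two_le (F := F)
      exact_mod_cast (by omega : 1 ≤ Fintype.card F)
    have h4 : (Fintype.card F : ℝ) ^ (j / 2) = Real.sqrt (qq F) ^ (2 * (j / 2)) := by
      rw [pow_mul, Real.sq_sqrt (by unfold qq; positivity)]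
      rfl
    rw [h4]
    have h5 : 1 ≤ Real.sqrt (qq F) := by
      rw [Real.one_le_sqrt]
      exact h3
    have h6 : Real.sqrt (qq F) ^ (2 * (j / 2)) ≤ Real.sqrt (qq F) ^ j :=
      pow_le_pow_right₀ h5 (by omega)
    linarith

end Pool.Agent.Q53.GE
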