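import Pool.Agent.Q53.GE.PLB
import Pool.Agent.Q284.WE.Stm
import Pool.Agent.Q284.PS.Stm2

/-!
# Project GE (helper284): job WPR, Weil's bound for primes
-/

set_option autoImplicit false

open Finset Polynomial ComplexConjugate
open Pool.Agent.H341R2.Sharp (Mon mem_Mon)

namespace Pool.Agent.Q53.GE

open Pool.Agent.Q284.PS (Prim Hay CM PD PI qq)
open Pool.Agent.Q284.GE Pool.Agent.Q284

variable {F : Type} [Field F] [Fintype F]

omit [Fintype F] in
theorem hay_norm_le {Q : F[X]} {l : ℕ} {χ : F[X] → ℂ} (h : Hay Q l χ) (f : F[X]) : ‖χ f‖ ≤ 1 := by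
  by_cases hf : f.Monic
  · by_cases hc : IsCoprime f Q
    · exact (h.norm f hf hc).le
    · rw [h.zero f hf hc, norm_zero]
      norm_num
  · rw [h.off f hf, norm_zero]
    norm_num

theorem t_WPR (hWEI : WE.S_WEI) (hUNI : PS.S_UNI) : S_WPR := by
  intro F _ _ Q Q' l l' χ χ' hχ hχ' hne j hj
  classical
  set ψ : F[X] → ℂ := fun f => χ f * conj (χ' f) with hψ
  have hay : Hay (Q * Q') (max l l') ψ :=
    (Pool.Agent.Q53.PS.t_HC F Q Q' l l' χ χ' hχ.1 hχ'.1).1
  have hnp : WE.NonPr (Q * Q') ψ := by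
    by_contra hcon
    apply hne
    refine (hUNI F Q Q' l l' χ χ' hχ hχ' ?_).2.2
    intro h hm h1 h2
    have hc1 : IsCoprime h Q := by
      by_contra hc
      exact h1 (hχ.1.zero h hm hc)
    have hc2 : IsCoprime h Q' := by
      by_contra hc
      exact h2 (hχ'.1.zero h hm hc)
    by_contra h3
    apply hcon
    refine ⟨h, hm, hc1.mul_right hc2, ?_⟩
    intro h4
    apply h3
    have h5 : conj (χ' h) * χ' h = 1 := by
      rw [mul_comm, Complex.mul_conj, Complex.normSq_eq_norm_sq, hχ'.1.norm h hm hc2]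
      norm_num
    calc χ h = χ h * (conj (χ' h) * χ' h) := by rw [h5, mul_one]
      _ = (χ h * conj (χ' h)) * χ' h := by ring
      _ = χ' h := by
        have h6 : χ h * conj (χ' h) = 1 := h4
        rw [h6, one_mul]
  have hw := hWEI F (Q * Q') (max l l') ψ hay hnp j hj
  have hsplit : WE.trc ψ j = (j : ℂ) * ∑ P ∈ PI F j, ψ P +
      ∑ P ∈ (PD F j).filter (fun P => P.natDegree < j), (P.natDegree : ℂ) * ψ P ^ (j / P.natDegree) := by
    unfold WE.trc
    rw [← sum_filter_add_sum_filter_not (PD F j) (fun P => P.natDegree < j), add_comm]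
    congr 1
    rw [filter_eq, mul_sum]
    refine sum_congr rfl fun P hP => ?_
    rw [(mem_PI.1 hP).2.1, Nat.div_self (by omega), pow_one]
  have hrest : ‖∑ P ∈ (PD F j).filter (fun P => P.natDegree < j),
      (P.natDegree : ℂ) * ψ P ^ (j / P.natDegree)‖ ≤ 2 * Real.sqrt (qq F) ^ j := by
    refine le_trans ?_ (t_PLB F j hj).2.2
    refine norm_sum_le_of_le _ fun P _ => ?_
    rw [norm_mul, norm_pow, Complex.norm_natCast]
    have h1 : ‖ψ P‖ ^ (j / P.natDegree) ≤ 1 := pow_le_one₀ (norm_nonneg _) (hay_norm_le hay P)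
    calc (P.natDegree : ℝ) * ‖ψ P‖ ^ (j / P.natDegree) ≤ (P.natDegree : ℝ) * 1 :=
          mul_le_mul_of_nonneg_left h1 (Nat.cast_nonneg _)
      _ = P.natDegree := mul_one _
  have h1 : ‖∑ P ∈ PI F j, χ P * conj (χ' P)‖ * j = ‖(j : ℂ) * ∑ P ∈ PI F j, ψ P‖ := by
    rw [norm_mul, Complex.norm_natCast, mul_comm]
  rw [h1]
  have h2 : (j : ℂ) * ∑ P ∈ PI F j, ψ P = WE.trc ψ j -
      ∑ P ∈ (PD F j).filter (fun P => P.natDegree < j), (P.natDegree : ℂ) * ψ P ^ (j / P.natDegree) := by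
    rw [hsplit]
    ring
  rw [h2]
  refine (norm_sub_le _ _).trans ?_
  have h3 : (((Q * Q').natDegree + max l l' : ℕ) : ℝ) ≤ Q.natDegree + l + Q'.natDegree + l' := by
    have h4 : (Q * Q').natDegree = Q.natDegree + Q'.natDegree :=
      hχ.1.monic.natDegree_mul hχ'.1.monic
    rw [h4]
    have h5 : Q.natDegree + Q'.natDegree + max l l' ≤ Q.natDegree + l + Q'.natDegree + l' := by
      have := max_le_add_of_nonneg (Nat.zero_le l) (Nat.zero_le l')
      omega
    exact_mod_cast h5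
  have h6 : (0 : ℝ) ≤ Real.sqrt (qq F) ^ j := by positivity
  have h7 : ‖WE.trc ψ j‖ ≤ (Q.natDegree + l + Q'.natDegree + l' : ℝ) * Real.sqrt (qq F) ^ j :=
    hw.trans (mul_le_mul_of_nonneg_right h3 h6)
  linarith

end Pool.Agent.Q53.GE
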